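import Pool.Agent.Helper16K9.TH.Df

/-! Leaf RED (helper86) -/

set_option autoImplicit false

namespace Pool.Agent.Helper86K9.TH

open Pool.Agent.Helper16K9.TH

namespace RedL

variable {F : Type} [Field F] {V : Type} [AddCommGroup V] [Module F V]

/-- composition with a functional -/
def cmp (φ : Module.Dual F V) : Module.End F V →ₗ[F] Module.Dual F V where
  toFun A := φ ∘ₗ A
  map_add' A B := by ext x; simp
  map_smul' c A := by ext x; simp

/-- the elements of `W` with values in the kernel of `φ` -/
def K1 (W : Submodule F (Module.End F V)) (φ : Module.Dual F V) : Submodule F W :=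
  LinearMap.ker ((cmp φ).domRestrict W)

theorem mem_K1 {W : Submodule F (Module.End F V)} {φ : Module.Dual F V} (A : W) :
    A ∈ K1 W φ ↔ ∀ x, φ (A.1 x) = 0 := by
  unfold K1
  rw [LinearMap.mem_ker]
  constructor
  · intro h x
    exact LinearMap.congr_fun h x
  · intro h
    ext x
    exact h x

/-- restriction to the kernel of `φ` -/
def rho (W : Submodule F (Module.End F V)) (φ : Module.Dual F V) :
    K1 W φ →ₗ[F] Module.End F (LinearMap.ker φ) where
  toFun A := LinearMap.codRestrict (LinearMap.ker φ) ((A.1.1 : Module.End F V) ∘ₗ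
    (LinearMap.ker φ).subtype) (fun x => (mem_K1 A.1).1 A.2 _)
  map_add' A B := by ext x; rfl
  map_smul' c A := by ext x; rfl

theorem rho_apply (W : Submodule F (Module.End F V)) (φ : Module.Dual F V) (A : K1 W φ)
    (x : LinearMap.ker φ) : ((rho W φ A x : LinearMap.ker φ) : V) = A.1.1 x := rfl

/-- an element of the kernel of the restriction -/
theorem ker_rho {W : Submodule F (Module.End F V)} {φ : Module.Dual F V} {A : K1 W φ}
    (hA : rho W φ A = 0) {x0 : V} (hx0 : φ x0 = 1) :
    LinearMap.smulRight φ (A.1.1 x0) = A.1.1 := by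
  ext x
  rw [LinearMap.smulRight_apply]
  have h1 : x - φ x • x0 ∈ LinearMap.ker φ := by
    rw [LinearMap.mem_ker, map_sub, map_smul, hx0, smul_eq_mul, mul_one, sub_self]
  have h2 : A.1.1 (x - φ x • x0) = 0 := by
    have h3 := LinearMap.congr_fun hA ⟨x - φ x • x0, h1⟩
    exact congrArg Subtype.val h3
  rw [map_sub, map_smul, sub_eq_zero] at h2
  exact h2.symm

/-- evaluation at `x0` on the kernel of the restriction -/
def evk (W : Submodule F (Module.End F V)) (φ : Module.Dual F V) {x0 : V} (hx0 : φ x0 = 1) :
    LinearMap.ker (rho W φ) →ₗ[F] VV W φ where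
  toFun A := ⟨A.1.1.1 x0, (mem_K1 A.1.1).1 A.1.2 _, by
    rw [ker_rho (LinearMap.mem_ker.1 A.2) hx0]
    exact A.1.1.2⟩
  map_add' A B := rfl
  map_smul' c A := rfl

theorem evk_inj (W : Submodule F (Module.End F V)) (φ : Module.Dual F V) {x0 : V}
    (hx0 : φ x0 = 1) : Function.Injective (evk W φ hx0) := by
  intro A B h
  have h1 : A.1.1.1 x0 = B.1.1.1 x0 := congrArg Subtype.val h
  have h2 := ker_rho (LinearMap.mem_ker.1 A.2) hx0
  have h3 := ker_rho (LinearMap.mem_ker.1 B.2) hx0
  apply Subtype.ext
  apply Subtype.ext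
  apply Subtype.ext
  rw [← h2, ← h3, h1]

theorem rn_aux {X Y : Type} [AddCommGroup X] [Module F X] [FiniteDimensional F X]
    [AddCommGroup Y] [Module F Y] (f : X →ₗ[F] Y) :
    Module.finrank F (LinearMap.range f) + Module.finrank F (LinearMap.ker f) =
      Module.finrank F X := LinearMap.finrank_range_add_finrank_ker f

theorem rn2 [FiniteDimensional F V] (W : Submodule F (Module.End F V)) (φ : Module.Dual F V)
    (f : K1 W φ →ₗ[F] Module.End F (LinearMap.ker φ)) :
    Module.finrank F (LinearMap.range f) + Module.finrank F (LinearMap.ker f) =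
      Module.finrank F (K1 W φ) := by
  have := rn_aux (X := K1 W φ) (Y := Module.End F (LinearMap.ker φ)) f
  exact this

theorem finrank_range_rho [FiniteDimensional F V] (W : Submodule F (Module.End F V))
    (φ : Module.Dual F V) {x0 : V} (hx0 : φ x0 = 1) :
    Module.finrank F W ≤ Module.finrank F (LinearMap.range (rho W φ)) +
      Module.finrank F (VV W φ) + Module.finrank F V := by
  have h1 := LinearMap.finrank_range_add_finrank_ker ((cmp φ).domRestrict W)
  have h2 : Module.finrank F (LinearMap.range (rho W φ)) +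
      Module.finrank F (LinearMap.ker (rho W φ)) = Module.finrank F (K1 W φ) :=
    rn2 W φ (rho W φ)
  have h3 := LinearMap.finrank_le_finrank_of_injective (evk_inj W φ hx0)
  have h4 : Module.finrank F (LinearMap.range ((cmp φ).domRestrict W)) ≤ Module.finrank F V := by
    rw [← Subspace.dual_finrank_eq (K := F) (V := V)]
    exact Submodule.finrank_le _
  have h5 : Module.finrank F (LinearMap.ker ((cmp φ).domRestrict W)) =
      Module.finrank F (K1 W φ) := rfl
  omega

theorem off_of_range [FiniteDimensional F V] {W : Submodule F (Module.End F V)}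
    {φ : Module.Dual F V} {N : ℕ} (h : OffUnits N (LinearMap.range (rho W φ))) :
    OffUnits N W := by
  classical
  obtain ⟨E, h1, h2, h3⟩ := h
  choose A hA using fun (i j : Fin N) (hij : i ≠ j) => LinearMap.mem_range.1 (h1 i j hij).1
  have hG : ∀ (B : K1 W φ) (x : V), B.1.1 x ∈ LinearMap.ker φ := fun B x =>
    (mem_K1 B.1).1 B.2 x
  have htr : ∀ (B : K1 W φ), LinearMap.trace F V B.1.1 =
      LinearMap.trace F (LinearMap.ker φ) (rho W φ B) := by
    intro B
    have := LinearMap.trace_restrict_eq_of_forall_mem (LinearMap.ker φ) B.1.1 (hG B)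
    rw [← this]
    congr 1
  have htr2 : ∀ (B C : K1 W φ), LinearMap.trace F V (B.1.1 * C.1.1) =
      LinearMap.trace F (LinearMap.ker φ) (rho W φ B * rho W φ C) := by
    intro B C
    have := LinearMap.trace_restrict_eq_of_forall_mem (LinearMap.ker φ) (B.1.1 * C.1.1)
      (fun x => hG B _)
    rw [← this]
    congr 1
  have htr3 : ∀ (B C D : K1 W φ), LinearMap.trace F V (B.1.1 * C.1.1 * D.1.1) =
      LinearMap.trace F (LinearMap.ker φ) (rho W φ B * rho W φ C * rho W φ D) := by
    intro B C D
    have := LinearMap.trace_restrict_eq_of_forall_mem (LinearMap.ker φ) (B.1.1 * C.1.1 * D.1.1)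
      (fun x => hG B _)
    rw [← this]
    congr 1
  obtain ⟨E', hE'⟩ : ∃ E' : Fin N → Fin N → Module.End F V,
      ∀ i j (h : i ≠ j), E' i j = (A i j h).1.1 :=
    ⟨fun i j => if h : i ≠ j then (A i j h).1.1 else 0, fun i j h => dif_pos h⟩
  refine ⟨E', ?_, ?_, ?_⟩
  · intro i j hij
    rw [hE' i j hij]
    refine ⟨(A i j hij).1.2, ?_⟩
    rw [htr, hA]
    exact (h1 i j hij).2
  · intro i j k l hij hkl
    rw [hE' i j hij, hE' k l hkl, htr2, hA, hA]
    exact h2 i j k l hij hkl
  · intro i j k l p q hij hkl hpq
    rw [hE' i j hij, hE' k l hkl, hE' p q hpq, htr3, hA, hA, hA]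
    exact h3 i j k l p q hij hkl hpq

end RedL

open RedL

theorem red : S_STK → S_T3 := by
  intro hS F _ _
  have key : ∀ (n : ℕ) (V : Type) [AddCommGroup V] [Module F V] [FiniteDimensional F V]
      (W : Submodule F (Module.End F V)) (N : ℕ), Module.finrank F V = n →
      n * (n + 1) + 2 * N * n < 2 * Module.finrank F W → OffUnits (N + 1) W := by
    intro n
    induction n with
    | zero =>
      intro V _ _ _ W N hn h
      exfalso
      have h1 : Module.finrank F W ≤ Module.finrank F (Module.End F V) := Submodule.finrank_le W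
      have h2 : Module.finrank F (Module.End F V) = 0 := by
        rw [Module.finrank_linearMap, hn]
      omega
    | succ n ih =>
      intro V _ _ _ W N hn h
      by_cases hall : ∀ φ : Module.Dual F V, N + 1 ≤ Module.finrank F (VV W φ)
      · exact hS F V W (N + 1) hall
      push Not at hall
      obtain ⟨φ, hφ⟩ := hall
      by_cases hφ0 : φ = 0
      · exfalso
        have h1 : VV W φ = ⊤ := by
          rw [eq_top_iff]
          intro v _
          refine ⟨by rw [hφ0]; rfl, ?_⟩
          have : LinearMap.smulRight φ v = 0 := by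
            rw [hφ0]
            ext x
            simp
          rw [this]
          exact W.zero_mem
        rw [h1, finrank_top, hn] at hφ
        have h2 : Module.finrank F W ≤ Module.finrank F (Module.End F V) := Submodule.finrank_le W
        rw [Module.finrank_linearMap, hn] at h2
        nlinarith
      · obtain ⟨x0, hx0⟩ : ∃ x0, φ x0 = 1 := by
          obtain ⟨x, hx⟩ : ∃ x, φ x ≠ 0 := by
            by_contra hc
            push Not at hc
            exact hφ0 (LinearMap.ext hc)
          refine ⟨(φ x)⁻¹ • x, ?_⟩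
          rw [map_smul, smul_eq_mul, inv_mul_cancel₀ hx]
        have h1 := finrank_range_rho W φ hx0
        have h2 := Module.Dual.finrank_ker_add_one_of_ne_zero hφ0
        refine off_of_range (φ := φ) (ih (LinearMap.ker φ) _ N (by omega) ?_)
        rw [hn] at h1
        nlinarith
  intro V _ _ _ W N h
  exact key _ V W N rfl h

end Pool.Agent.Helper86K9.TH
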